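import Mathlib

set_option autoImplicit false

open MeasureTheory

namespace Pool.Agent.Helper84.INS

/-- A finite two-player stochastic game with simultaneous moves: finitely many states, in every state
a finite nonempty action set for either player, and for every state and pair of actions a transition
distribution. -/
structure Game where
  S : Type
  A : S → Type
  B : S → Type
  finS : Finite S
  finA : ∀ s, Finite (A s)
  finB : ∀ s, Finite (B s)
  neA : ∀ s, Nonempty (A s)
  neB : ∀ s, Nonempty (B s)
  p : (s : S) → A s → B s → PMF S

/-- One stage of a play: the state and the actions which the two players choose there. -/
structure Game.Stage (G : Game) where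
  s : G.S
  a : G.A s
  b : G.B s

/-- Every set of stages is measurable (there are finitely many stages). -/
instance (G : Game) : MeasurableSpace G.Stage := ⊤

/-- A strategy of player 1: to every history (the list of all past stages, in chronological order)
and every current state a distribution on the actions of player 1 in this state. -/
def Game.Strat1 (G : Game) : Type := List G.Stage → (s : G.S) → PMF (G.A s)

/-- A strategy of player 2. -/
def Game.Strat2 (G : Game) : Type := List G.Stage → (s : G.S) → PMF (G.B s)

/-- The distribution of the next state, given the list of all past stages: the initial state if there
is no past stage, otherwise the transition distribution of the last stage. -/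
noncomputable def Game.next (G : Game) (s₀ : G.S) (h : List G.Stage) : PMF G.S :=
  match h.getLast? with
  | none => PMF.pure s₀
  | some z => G.p z.s z.a z.b

/-- The list of the first `n` stages of a play. -/
def Game.hist (G : Game) (ω : ℕ → G.Stage) (n : ℕ) : List G.Stage := (List.range n).map ω

/-- `μ` is the law of the play when the players use `σ` and `τ` from the initial state `s₀`: given the
first `n` stages, the next state is drawn from `next`, and then the two actions are drawn
independently from the distributions prescribed by the strategies. -/
structure Game.IsLaw (G : Game) (σ : G.Strat1) (τ : G.Strat2) (s₀ : G.S)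
    (μ : Measure (ℕ → G.Stage)) : Prop where
  prob : IsProbabilityMeasure μ
  step : ∀ (n : ℕ) (ω : ℕ → G.Stage),
    μ {ω' | ∀ i < n + 1, ω' i = ω i} = μ {ω' | ∀ i < n, ω' i = ω i} *
      (G.next s₀ (G.hist ω n) (ω n).s * σ (G.hist ω n) (ω n).s (ω n).a *
        τ (G.hist ω n) (ω n).s (ω n).b)

/-- A strategy is stationary if the prescribed distribution depends only on the current state. -/
def Game.Stationary1 (G : Game) (σ : G.Strat1) : Prop := ∀ h h' s, σ h s = σ h' s

/-- A strategy is stationary if the prescribed distribution depends only on the current state. -/
def Game.Stationary2 (G : Game) (τ : G.Strat2) : Prop := ∀ h h' s, τ h s = τ h' s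

/-- A pure stationary strategy: in state `s` always the action `f s`. -/
noncomputable def Game.pure1 (G : Game) (f : (s : G.S) → G.A s) : G.Strat1 := fun _ s => PMF.pure (f s)

/-- A pure stationary strategy: in state `s` always the action `f s`. -/
noncomputable def Game.pure2 (G : Game) (f : (s : G.S) → G.B s) : G.Strat2 := fun _ s => PMF.pure (f s)

end Pool.Agent.Helper84.INS
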