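import Pool.Agent.Helper84.INS.Defs

set_option autoImplicit false

open MeasureTheory ProbabilityTheory

namespace Pool.Agent.Helper84.INS

variable {G : Game}

/-- Stages as a sigma type. -/
def stageEquiv (G : Game) : G.Stage ≃ (Σ s : G.S, G.A s × G.B s) where
  toFun z := ⟨z.s, z.a, z.b⟩
  invFun z := ⟨z.1, z.2.1, z.2.2⟩
  left_inv _ := rfl
  right_inv _ := rfl

instance (G : Game) : Finite G.Stage := by
  have := G.finS
  have := G.finA
  have := G.finB
  exact Finite.of_equiv _ (stageEquiv G).symm

instance (G : Game) : MeasurableSingletonClass G.Stage := ⟨fun _ => trivial⟩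

/-- Distribution of the next stage. -/
noncomputable def nextStage (σ : G.Strat1) (τ : G.Strat2) (s₀ : G.S) (h : List G.Stage) :
    PMF G.Stage :=
  (G.next s₀ h).bind fun s => (σ h s).bind fun a => (τ h s).map fun b => ⟨s, a, b⟩

theorem nextStage_apply (σ : G.Strat1) (τ : G.Strat2) (s₀ : G.S) (h : List G.Stage) (z : G.Stage) :
    nextStage σ τ s₀ h z = G.next s₀ h z.s * σ h z.s z.a * τ h z.s z.b := by
  classical
  obtain ⟨s, a, b⟩ := z
  unfold nextStage
  rw [PMF.bind_apply, tsum_eq_single s]
  · rw [PMF.bind_apply, tsum_eq_single a]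
    · rw [PMF.map_apply, tsum_eq_single b]
      · simp [mul_assoc]
      · intro b' hb'
        rw [if_neg]
        intro h'
        injection h' with h1 h2 h3
        exact hb' h3.symm
    · intro a' ha'
      rw [PMF.map_apply]
      refine mul_eq_zero_of_right _ ?_
      refine ENNReal.tsum_eq_zero.2 fun b' => ?_
      rw [if_neg]
      intro h'
      injection h' with h1 h2 h3
      exact ha' h2.symm
  · intro s' hs'
    rw [PMF.bind_apply]
    refine mul_eq_zero_of_right _ ?_
    refine ENNReal.tsum_eq_zero.2 fun a' => ?_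
    rw [PMF.map_apply]
    refine mul_eq_zero_of_right _ ?_
    refine ENNReal.tsum_eq_zero.2 fun b' => ?_
    rw [if_neg]
    intro h'
    injection h' with h1 h2 h3
    exact hs' h1.symm

/-- Extend a finite trajectory to a sequence (by a constant) in order to speak about histories. -/
def ext {Z : Type} (n : ℕ) (x : (i : Finset.Iic n) → Z) (i : ℕ) : Z :=
  x ⟨min i n, Finset.mem_Iic.2 (min_le_right _ _)⟩

theorem ext_of_le {Z : Type} {n : ℕ} (x : (i : Finset.Iic n) → Z) {i : ℕ} (hi : i ≤ n) :
    ext n x i = x ⟨i, Finset.mem_Iic.2 hi⟩ := by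
  unfold ext
  congr 2
  exact min_eq_left hi

theorem hist_congr {ω ω' : ℕ → G.Stage} {n : ℕ} (h : ∀ i < n, ω i = ω' i) :
    G.hist ω n = G.hist ω' n := by
  unfold Game.hist
  exact List.map_congr_left fun i hi => h i (List.mem_range.1 hi)

/-- The one-step kernels. -/
noncomputable def kap (σ : G.Strat1) (τ : G.Strat2) (s₀ : G.S) (n : ℕ) :
    Kernel ((i : Finset.Iic n) → G.Stage) G.Stage where
  toFun x := (nextStage σ τ s₀ (G.hist (ext n x) (n + 1))).toMeasure
  measurable' := measurable_of_countable _

instance (σ : G.Strat1) (τ : G.Strat2) (s₀ : G.S) (n : ℕ) : IsMarkovKernel (kap σ τ s₀ n) :=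
  ⟨fun x => by
    unfold kap
    exact PMF.toMeasure.isProbabilityMeasure _⟩

/-- The law of the play given by the theorem of Ionescu and Tulcea. -/
noncomputable def play (σ : G.Strat1) (τ : G.Strat2) (s₀ : G.S) : Measure (ℕ → G.Stage) :=
  Kernel.trajMeasure (X := fun _ => G.Stage) (nextStage σ τ s₀ []).toMeasure (kap σ τ s₀)

theorem play_zero (σ : G.Strat1) (τ : G.Strat2) (s₀ : G.S) (z : G.Stage) :
    play σ τ s₀ {ω' | ω' 0 = z} = nextStage σ τ s₀ [] z := by
  have key : (play σ τ s₀).map (fun ω => ω 0) = (nextStage σ τ s₀ []).toMeasure := by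
    have h1 : (play σ τ s₀).map (Preorder.frestrictLe (π := fun _ => G.Stage) 0) =
        ((nextStage σ τ s₀ []).toMeasure).map
          (MeasurableEquiv.piUnique (fun _ : Finset.Iic 0 => G.Stage)).symm := by
      unfold play Kernel.trajMeasure
      rw [Measure.map_comp _ _ (by fun_prop), Kernel.traj_map_frestrictLe,
        Kernel.partialTraj_self, Measure.id_comp]
    have h2 : (play σ τ s₀).map (fun ω => ω 0) =
        ((play σ τ s₀).map (Preorder.frestrictLe (π := fun _ => G.Stage) 0)).map
          (MeasurableEquiv.piUnique (fun _ : Finset.Iic 0 => G.Stage)) := by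
      rw [Measure.map_map (by fun_prop) (by fun_prop)]
      rfl
    rw [h2, h1, Measure.map_map (by fun_prop) (by fun_prop)]
    rw [MeasurableEquiv.self_comp_symm, Measure.map_id]
  have h3 : play σ τ s₀ {ω' | ω' 0 = z} = (play σ τ s₀).map (fun ω => ω 0) {z} := by
    rw [Measure.map_apply (by fun_prop) (MeasurableSet.singleton z)]
    rfl
  rw [h3, key, PMF.toMeasure_apply_singleton _ _ (MeasurableSet.singleton z)]

theorem play_isLaw (σ : G.Strat1) (τ : G.Strat2) (s₀ : G.S) : G.IsLaw σ τ s₀ (play σ τ s₀) := by
  refine ⟨?_, ?_⟩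
  · unfold play
    infer_instance
  · have : IsProbabilityMeasure (play σ τ s₀) := by
      unfold play
      infer_instance
    intro n ω
    rw [← nextStage_apply]
    cases n with
    | zero =>
      have e1 : {ω' : ℕ → G.Stage | ∀ i < 0 + 1, ω' i = ω i} = {ω' | ω' 0 = ω 0} := by
        ext ω'
        simp
      have e2 : {ω' : ℕ → G.Stage | ∀ i < 0, ω' i = ω i} = Set.univ := by
        ext ω'
        simp
      rw [e1, e2, measure_univ, one_mul, play_zero]
      rfl
    | succ n =>
      have key := Kernel.map_frestrictLe_trajMeasure_compProd_eq_map_trajMeasure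
        (X := fun _ => G.Stage) (μ₀ := (nextStage σ τ s₀ []).toMeasure) (κ := kap σ τ s₀) (a := n)
      change (play σ τ s₀).map _ ⊗ₘ _ = (play σ τ s₀).map _ at key
      have h1 := congrArg (fun m => m ({Preorder.frestrictLe (π := fun _ => G.Stage) n ω} ×ˢ {ω (n + 1)})) key
      rw [Measure.compProd_apply_prod (MeasurableSet.singleton _) (MeasurableSet.singleton _),
        lintegral_singleton, Measure.map_apply (by fun_prop) (MeasurableSet.singleton _),
        Measure.map_apply (by fun_prop)
          ((MeasurableSet.singleton _).prod (MeasurableSet.singleton _))] at h1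
      have e1 : {ω' : ℕ → G.Stage | ∀ i < n + 1 + 1, ω' i = ω i} =
          (fun x : ℕ → G.Stage => (Preorder.frestrictLe (π := fun _ => G.Stage) n x, x (n + 1))) ⁻¹'
            ({Preorder.frestrictLe (π := fun _ => G.Stage) n ω} ×ˢ {ω (n + 1)}) := by
        ext ω'
        simp only [Set.mem_ofPred_eq, Set.mem_preimage, Set.mem_prod, Set.mem_singleton_iff]
        constructor
        · intro h
          refine ⟨?_, h _ (by omega)⟩
          funext i
          exact h i.1 (by have := Finset.mem_Iic.1 i.2; omega)
        · rintro ⟨h, h'⟩ i hi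
          rcases Nat.lt_or_ge i (n + 1) with h2 | h2
          · exact congrFun h ⟨i, Finset.mem_Iic.2 (by omega)⟩
          · have : i = n + 1 := by omega
            subst this
            exact h'
      have e2 : {ω' : ℕ → G.Stage | ∀ i < n + 1, ω' i = ω i} =
          (Preorder.frestrictLe (π := fun _ => G.Stage) n) ⁻¹'
            {Preorder.frestrictLe (π := fun _ => G.Stage) n ω} := by
        ext ω'
        simp only [Set.mem_ofPred_eq, Set.mem_preimage, Set.mem_singleton_iff]
        constructor
        · intro h
          funext i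
          exact h i.1 (by have := Finset.mem_Iic.1 i.2; omega)
        · intro h i hi
          exact congrFun h ⟨i, Finset.mem_Iic.2 (by omega)⟩
      rw [e1, e2, ← h1, mul_comm]
      congr 1
      change (nextStage σ τ s₀ (G.hist (ext n _) (n + 1))).toMeasure {ω (n + 1)} = _
      rw [PMF.toMeasure_apply_singleton _ _ (MeasurableSet.singleton _)]
      congr 2
      refine hist_congr fun i hi => ?_
      rw [ext_of_le _ (by omega)]
      rfl

theorem law_unique {σ : G.Strat1} {τ : G.Strat2} {s₀ : G.S} {μ ν : Measure (ℕ → G.Stage)}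
    (hμ : G.IsLaw σ τ s₀ μ) (hν : G.IsLaw σ τ s₀ ν) : μ = ν := by
  have := hμ.prob
  have := hν.prob
  have hcyl : ∀ (n : ℕ) (ω : ℕ → G.Stage),
      μ {ω' | ∀ i < n, ω' i = ω i} = ν {ω' | ∀ i < n, ω' i = ω i} := by
    intro n ω
    induction n with
    | zero =>
      have e2 : {ω' : ℕ → G.Stage | ∀ i < 0, ω' i = ω i} = Set.univ := by
        ext ω'
        simp
      rw [e2, measure_univ, measure_univ]
    | succ n ih => rw [hμ.step, hν.step, ih]
  have h1 : ∀ n, μ.map (Preorder.frestrictLe (π := fun _ => G.Stage) n) =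
      ν.map (Preorder.frestrictLe (π := fun _ => G.Stage) n) := by
    intro n
    refine Measure.ext_of_singleton fun x => ?_
    rw [Measure.map_apply (by fun_prop) (MeasurableSet.singleton _),
      Measure.map_apply (by fun_prop) (MeasurableSet.singleton _)]
    have e2 : (Preorder.frestrictLe (π := fun _ => G.Stage) n) ⁻¹' {x} =
        {ω' : ℕ → G.Stage | ∀ i < n + 1, ω' i = ext n x i} := by
      ext ω'
      simp only [Set.mem_ofPred_eq, Set.mem_preimage, Set.mem_singleton_iff]
      constructor
      · intro h i hi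
        rw [ext_of_le _ (by omega), ← h]
        rfl
      · intro h
        funext i
        have hi := Finset.mem_Iic.1 i.2
        have := h i.1 (by omega)
        rw [ext_of_le _ hi] at this
        exact this
    rw [e2, hcyl]
  have h2 : IsProjectiveLimit (α := fun _ : ℕ => G.Stage) μ (fun I => ν.map I.restrict) := by
    have hfam : IsProjectiveMeasureFamily (α := fun _ : ℕ => G.Stage)
        (fun I : Finset ℕ => ν.map I.restrict) := by
      intro I J hJ
      rw [Measure.map_map (by fun_prop) (by fun_prop)]
      rfl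
    exact (isProjectiveLimit_nat_iff hfam μ).2 fun n => h1 n
  have h3 : IsProjectiveLimit (α := fun _ : ℕ => G.Stage) ν (fun I => ν.map I.restrict) := fun I => rfl
  exact h2.unique h3

end Pool.Agent.Helper84.INS
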