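import Pool.Agent.Helper84.INS.Reach
import Pool.Agent.Helper70.NoEq

set_option autoImplicit false

open MeasureTheory ProbabilityTheory
open Pool.Agent.Helper70

namespace Pool.Agent.Helper84.INS

/-- In the seven-state game one of the two players has a pure stationary deviation that gains more
than `1/100` (variant of `Helper70.no_eq` with pure deviations). -/
theorem no_eq_pure (σ τ : Fin 7 → Bool → ℝ)
    (hσ : ∀ s a, 0 ≤ σ s a) (hσ1 : ∀ s, ∑ a, σ s a = 1)
    (hτ : ∀ s b, 0 ≤ τ s b) (hτ1 : ∀ s, ∑ b, τ s b = 1)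
    (h1T : valR (chain pT τ) tgt 0 ≤ valR (chain σ τ) tgt 0 + 1 / 100)
    (h1F : valR (chain pF τ) tgt 0 ≤ valR (chain σ τ) tgt 0 + 1 / 100)
    (h2T : valR (chain σ τ) uns 0 ≤ valR (chain σ pT) uns 0 + 1 / 100)
    (h2F : valR (chain σ τ) uns 0 ≤ valR (chain σ pF) uns 0 + 1 / 100) : False := by
  obtain ⟨f0, f1, f2, f3⟩ := tgt_eqs hσ hσ1 hτ hτ1
  obtain ⟨g0, g1, g2, g3⟩ := uns_eqs hσ hσ1 hτ hτ1
  have cP := chain_nonneg hσ hτ
  have cP1 := chain_sum hσ1 hτ1
  have f1le : valR (chain σ τ) tgt 1 ≤ 1 := valR_le_one cP cP1 1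
  have g1le : valR (chain σ τ) uns 1 ≤ 1 := valR_le_one cP cP1 1
  have g2ge : 0 ≤ valR (chain σ τ) uns 2 := valR_nonneg cP cP1 2
  have y0 : 0 ≤ τ 1 true := hτ 1 true
  have x0 : 0 ≤ σ 1 true := hσ 1 true
  have q0 : 0 ≤ σ 2 true := hσ 2 true
  have y1 : τ 1 true ≤ 1 := by
    have := hτ1 1; rw [Fintype.sum_bool] at this; linarith [hτ 1 false]
  have x1 : σ 1 true ≤ 1 := by
    have := hσ1 1; rw [Fintype.sum_bool] at this; linarith [hσ 1 false]
  have q1 : σ 2 true ≤ 1 := by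
    have := hσ1 2; rw [Fintype.sum_bool] at this; linarith [hσ 2 false]
  have hpF : ∀ s, pF s true = 0 := fun _ => rfl
  have hpT : ∀ s, pT s true = 1 := fun _ => rfl
  rcases eq_or_lt_of_le y0 with hy | hy
  · -- player 2 never exits
    have dev := h1T
    obtain ⟨d0, d1, d2, -⟩ := tgt_eqs (σ := pT) (τ := τ) pT_nonneg pT_sum hτ hτ1
    rw [hpT, ← hy] at d1
    rw [hpT] at d2
    have dev' : (1 : ℝ) / 4 ≤ valR (chain σ τ) tgt 0 + 1 / 100 := by
      refine le_trans (le_of_eq ?_) dev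
      linarith
    rw [← hy] at f1 g1
    rcases eq_or_lt_of_le x0 with hx | hx
    · have := f3 hy.symm hx.symm
      rw [this] at f2 f0
      linarith
    · have dev2 := h2T
      obtain ⟨e0, e1, e2, -⟩ := uns_eqs (σ := σ) (τ := pT) hσ hσ1 pT_nonneg pT_sum
      rw [hpT] at e1
      exact arith_zero _ _ _ _ _ _ _ _ _ _ _ q1 q0 hx f0 f1 f2 g0 g1 g2 e0 e1 e2 dev' dev2
  · -- player 2 exits with positive probability
    have dev := h1F
    obtain ⟨d0, d1, d2, -⟩ := tgt_eqs (σ := pF) (τ := τ) pF_nonneg pF_sum hτ hτ1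
    rw [hpF] at d1 d2
    have hd1 : valR (chain pF τ) tgt 1 = 1 := by
      have : τ 1 true * (valR (chain pF τ) tgt 1 - 1) = 0 := by linarith
      rcases mul_eq_zero.1 this with h | h
      · exact absurd h hy.ne'
      · linarith
    have dev' : (3 : ℝ) / 4 ≤ valR (chain σ τ) tgt 0 + 1 / 100 := by
      refine le_trans (le_of_eq ?_) dev
      rw [d0, d2, hd1]; norm_num
    have dev2 := h2F
    obtain ⟨e0, e1, e2, e3⟩ := uns_eqs (σ := σ) (τ := pF) hσ hσ1 pF_nonneg pF_sum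
    rw [hpF] at e1 e3
    have E2ge : 0 ≤ valR (chain σ pF) uns 2 :=
      valR_nonneg (chain_nonneg hσ pF_nonneg) (chain_sum hσ1 pF_sum) 2
    have hE : valR (chain σ pF) uns 1 ≤ valR (chain σ pF) uns 2 := by
      rcases eq_or_lt_of_le x0 with hx | hx
      · rw [e3 rfl hx.symm]
        exact E2ge
      · have : σ 1 true * (valR (chain σ pF) uns 1 - valR (chain σ pF) uns 2) = 0 := by linarith
        rcases mul_eq_zero.1 this with h | h
        · exact absurd h hx.ne'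
        · linarith
    exact arith_pos _ _ _ _ _ _ _ _ _ _ _ _ q1 q0 x0 y1 hy f0 f1 f2 f1le g0 g1 g2 g1le g2ge
      e0 e2 hE E2ge dev' dev2

/-- The seven-state game. -/
noncomputable def G7 : Game where
  S := Fin 7
  A := fun _ => Bool
  B := fun _ => Bool
  finS := inferInstance
  finA := fun _ => inferInstance
  finB := fun _ => inferInstance
  neA := fun _ => inferInstance
  neB := fun _ => inferInstance
  p := fun s a b => PMF.ofFintype (fun t => ENNReal.ofReal (gameD s a b t)) (by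
    rw [← ENNReal.ofReal_sum_of_nonneg (fun t _ => gameD_nonneg s a b t), gameD_sum,
      ENNReal.ofReal_one])

noncomputable instance : Fintype G7.S := inferInstanceAs (Fintype (Fin 7))
noncomputable instance (s : G7.S) : Fintype (G7.A s) := inferInstanceAs (Fintype Bool)
noncomputable instance (s : G7.S) : Fintype (G7.B s) := inferInstanceAs (Fintype Bool)
noncomputable instance : Fintype G7.Stage := Fintype.ofFinite _

/-- Real weights of a stationary strategy of player 1 in `G7`. -/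
noncomputable def w1 (σ : G7.Strat1) : Fin 7 → Bool → ℝ := fun s a => (σ [] s a).toReal

/-- Real weights of a stationary strategy of player 2 in `G7`. -/
noncomputable def w2 (τ : G7.Strat2) : Fin 7 → Bool → ℝ := fun s b => (τ [] s b).toReal

theorem mc_G7 (σ : G7.Strat1) (τ : G7.Strat2) : mc σ τ = chain (w1 σ) (w2 τ) := by
  funext s t
  unfold mc chain
  refine Finset.sum_congr rfl fun a _ => Finset.sum_congr rfl fun b _ => ?_
  have : (G7.p s a b t).toReal = gameD s a b t := by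
    change (ENNReal.ofReal (gameD s a b t)).toReal = _
    rw [ENNReal.toReal_ofReal (gameD_nonneg s a b t)]
  rw [this]
  rfl

theorem w1_nonneg (σ : G7.Strat1) (s : Fin 7) (a : Bool) : 0 ≤ w1 σ s a := ENNReal.toReal_nonneg
theorem w2_nonneg (τ : G7.Strat2) (s : Fin 7) (b : Bool) : 0 ≤ w2 τ s b := ENNReal.toReal_nonneg
theorem w1_sum (σ : G7.Strat1) (s : Fin 7) : ∑ a, w1 σ s a = 1 := pmf_sum (X := Bool) (σ [] s)
theorem w2_sum (τ : G7.Strat2) (s : Fin 7) : ∑ b, w2 τ s b = 1 := pmf_sum (X := Bool) (τ [] s)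

theorem w1_pureT : w1 (G7.pure1 fun _ => true) = pT := by
  funext s a
  change ((PMF.pure true : PMF Bool) a).toReal = _
  cases a <;> simp [pT, PMF.pure_apply]

theorem w1_pureF : w1 (G7.pure1 fun _ => false) = pF := by
  funext s a
  change ((PMF.pure false : PMF Bool) a).toReal = _
  cases a <;> simp [pF, PMF.pure_apply]

theorem w2_pureT : w2 (G7.pure2 fun _ => true) = pT := by
  funext s a
  change ((PMF.pure true : PMF Bool) a).toReal = _
  cases a <;> simp [pT, PMF.pure_apply]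

theorem w2_pureF : w2 (G7.pure2 fun _ => false) = pF := by
  funext s a
  change ((PMF.pure false : PMF Bool) a).toReal = _
  cases a <;> simp [pF, PMF.pure_apply]

theorem st1 (f : (s : G7.S) → G7.A s) : G7.Stationary1 (G7.pure1 f) := fun _ _ _ => rfl
theorem st2 (f : (s : G7.S) → G7.B s) : G7.Stationary2 (G7.pure2 f) := fun _ _ _ => rfl

theorem val1 {σ : G7.Strat1} {τ : G7.Strat2} {μ : Measure (ℕ → G7.Stage)}
    (hμ : G7.IsLaw σ τ (0 : Fin 7) μ) (hσ : G7.Stationary1 σ) (hτ : G7.Stationary2 τ) :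
    (μ {ω | ∃ n, (ω n).s ∈ tgt}).toReal = valR (chain (w1 σ) (w2 τ)) tgt 0 := by
  rw [← mc_G7]
  exact reach_eq hμ hσ hτ tgt

theorem val2 {σ : G7.Strat1} {τ : G7.Strat2} {μ : Measure (ℕ → G7.Stage)}
    (hμ : G7.IsLaw σ τ (0 : Fin 7) μ) (hσ : G7.Stationary1 σ) (hτ : G7.Stationary2 τ) :
    (μ {ω | ∀ n, (ω n).s ∈ unsᶜ}).toReal = 1 - valR (chain (w1 σ) (w2 τ)) uns 0 := by
  have := hμ.prob
  rw [← mc_G7]
  refine (safe_eq (G := G7) unsᶜ).trans ?_
  rw [compl_compl]
  congr 1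
  exact reach_eq hμ hσ hτ uns

theorem main (σ : G7.Strat1) (τ : G7.Strat2) (hσ : G7.Stationary1 σ) (hτ : G7.Stationary2 τ) :
    (∃ f : (s : G7.S) → G7.A s, ∀ μ μ', G7.IsLaw σ τ (0 : Fin 7) μ →
      G7.IsLaw (G7.pure1 f) τ (0 : Fin 7) μ' →
      (μ {ω | ∃ n, (ω n).s ∈ tgt}).toReal + 1 / 100 < (μ' {ω | ∃ n, (ω n).s ∈ tgt}).toReal) ∨
    (∃ g : (s : G7.S) → G7.B s, ∀ μ μ', G7.IsLaw σ τ (0 : Fin 7) μ →
      G7.IsLaw σ (G7.pure2 g) (0 : Fin 7) μ' →
      (μ {ω | ∀ n, (ω n).s ∈ unsᶜ}).toReal + 1 / 100 <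
        (μ' {ω | ∀ n, (ω n).s ∈ unsᶜ}).toReal) := by
  by_contra hcon
  rw [not_or, not_exists, not_exists] at hcon
  obtain ⟨c1, c2⟩ := hcon
  have d1 : ∀ f : (s : G7.S) → G7.A s, valR (chain (w1 (G7.pure1 f)) (w2 τ)) tgt 0 ≤
      valR (chain (w1 σ) (w2 τ)) tgt 0 + 1 / 100 := by
    intro f
    have := c1 f
    push Not at this
    obtain ⟨μ, μ', h1, h2, h3⟩ := this
    rwa [val1 h1 hσ hτ, val1 h2 (st1 f) hτ] at h3
  have d2 : ∀ g : (s : G7.S) → G7.B s, valR (chain (w1 σ) (w2 τ)) uns 0 ≤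
      valR (chain (w1 σ) (w2 (G7.pure2 g))) uns 0 + 1 / 100 := by
    intro g
    have := c2 g
    push Not at this
    obtain ⟨μ, μ', h1, h2, h3⟩ := this
    rw [val2 h1 hσ hτ, val2 h2 hσ (st2 g)] at h3
    linarith
  have e1 := d1 fun _ => true
  have e2 := d1 fun _ => false
  have e3 := d2 fun _ => true
  have e4 := d2 fun _ => false
  rw [w1_pureT] at e1
  rw [w1_pureF] at e2
  rw [w2_pureT] at e3
  rw [w2_pureF] at e4
  exact no_eq_pure (w1 σ) (w2 τ) (w1_nonneg σ) (w1_sum σ) (w2_nonneg τ) (w2_sum τ) e1 e2 e3 e4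

end Pool.Agent.Helper84.INS
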