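import Pool.Agent.Helper84.INS.Exist
import Pool.Agent.Helper70.Reach

set_option autoImplicit false

open MeasureTheory ProbabilityTheory Filter Topology

namespace Pool.Agent.Helper84.INS

variable {G : Game}

theorem pmf_sum {X : Type} [Fintype X] (p : PMF X) : ∑ x, (p x).toReal = 1 := by
  rw [← ENNReal.toReal_sum (fun x _ => p.apply_ne_top x), ← tsum_fintype (L := .unconditional X), p.tsum_coe, ENNReal.toReal_one]

/-- Real one-step weight. -/
noncomputable def qr (σ : G.Strat1) (τ : G.Strat2) (s₀ : G.S) (h : List G.Stage) (z : G.Stage) : ℝ :=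
  (G.next s₀ h z.s).toReal * (σ h z.s z.a).toReal * (τ h z.s z.b).toReal

/-- Probability of a finite history. -/
noncomputable def cyl (μ : Measure (ℕ → G.Stage)) (n : ℕ) (h : Fin n → G.Stage) : ℝ :=
  (μ {ω | ∀ i : Fin n, ω i = h i}).toReal

theorem hist_ofFn (n : ℕ) (ω : ℕ → G.Stage) : G.hist ω n = List.ofFn (fun i : Fin n => ω i) := by
  unfold Game.hist
  rw [List.ofFn_eq_map, ← List.map_coe_finRange_eq_range, List.map_map]
  rfl

theorem cyl_succ {σ : G.Strat1} {τ : G.Strat2} {s₀ : G.S} {μ : Measure (ℕ → G.Stage)}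
    (hμ : G.IsLaw σ τ s₀ μ) (n : ℕ) (h : Fin n → G.Stage) (z : G.Stage) :
    cyl μ (n + 1) (Fin.snoc h z : Fin (n + 1) → G.Stage) = cyl μ n h * qr σ τ s₀ (List.ofFn h) z := by
  classical
  set ω : ℕ → G.Stage := fun i => if hi : i < n then h ⟨i, hi⟩ else z with hω
  have hωn : ω n = z := by simp [hω]
  have hωi : ∀ i (hi : i < n), ω i = h ⟨i, hi⟩ := fun i hi => by simp [hω, hi]
  have e1 : {ω' : ℕ → G.Stage | ∀ i : Fin (n + 1), ω' i = (Fin.snoc h z : Fin (n + 1) → G.Stage) i} =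
      {ω' | ∀ i < n + 1, ω' i = ω i} := by
    ext ω'
    simp only [Set.mem_ofPred_eq]
    constructor
    · intro H i hi
      rw [H ⟨i, hi⟩]
      rcases Nat.lt_or_ge i n with h2 | h2
      · rw [hωi i h2]
        exact Fin.snoc_castSucc (α := fun _ => G.Stage) z h ⟨i, h2⟩
      · have : i = n := by omega
        subst this
        rw [hωn]
        exact Fin.snoc_last (α := fun _ => G.Stage) z h
    · intro H i
      rw [H i.1 i.2]
      rcases Nat.lt_or_ge i.1 n with h2 | h2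
      · rw [hωi i.1 h2]
        exact (Fin.snoc_castSucc (α := fun _ => G.Stage) z h ⟨i.1, h2⟩).symm
      · have h3 : i = Fin.last n := by
          apply Fin.ext
          have := i.2
          simp only [Fin.val_last]
          omega
        rw [h3]
        rw [Fin.val_last, hωn]
        exact (Fin.snoc_last (α := fun _ => G.Stage) z h).symm
  have e2 : {ω' : ℕ → G.Stage | ∀ i : Fin n, ω' i = h i} = {ω' | ∀ i < n, ω' i = ω i} := by
    ext ω'
    simp only [Set.mem_ofPred_eq]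
    constructor
    · intro H i hi
      rw [H ⟨i, hi⟩, hωi i hi]
    · intro H i
      rw [H i.1 i.2, hωi i.1 i.2]
  unfold cyl qr
  rw [e1, e2, hμ.step n ω, hωn, ENNReal.toReal_mul, ENNReal.toReal_mul, ENNReal.toReal_mul]
  have e3 : G.hist ω n = List.ofFn h := by
    rw [hist_ofFn]
    congr 1
    funext i
    exact hωi i.1 i.2
  rw [e3]

theorem next_snoc (s₀ : G.S) (n : ℕ) (h : Fin n → G.Stage) (z : G.Stage) :
    G.next s₀ (List.ofFn (Fin.snoc h z : Fin (n + 1) → G.Stage)) = G.p z.s z.a z.b := by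
  rw [List.ofFn_succ']
  simp only [Fin.snoc_castSucc, Fin.snoc_last]
  unfold Game.next
  rw [List.concat_eq_append, List.getLast?_concat]

theorem sum_stage [Fintype G.S] [∀ s, Fintype (G.A s)] [∀ s, Fintype (G.B s)] [Fintype G.Stage]
    (f : G.Stage → ℝ) : ∑ z, f z = ∑ s, ∑ a, ∑ b, f ⟨s, a, b⟩ := by
  rw [Fintype.sum_equiv (stageEquiv G) f (fun x => f ⟨x.1, x.2.1, x.2.2⟩) (fun _ => rfl),
    Fintype.sum_sigma]
  refine Finset.sum_congr rfl fun s _ => ?_
  rw [Fintype.sum_prod_type]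

/-- The Markov chain on the states induced by two stationary strategies. -/
noncomputable def mc [Fintype G.S] [∀ s, Fintype (G.A s)] [∀ s, Fintype (G.B s)]
    (σ : G.Strat1) (τ : G.Strat2) (s t : G.S) : ℝ :=
  ∑ a, ∑ b, (σ [] s a).toReal * (τ [] s b).toReal * (G.p s a b t).toReal

section

variable [Fintype G.S] [∀ s, Fintype (G.A s)] [∀ s, Fintype (G.B s)] [Fintype G.Stage]

open Classical in
/-- Probability that the target is hit in the first `n` stages, or else the expectation of `x` at the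
state of stage `n`. -/
noncomputable def U (μ : Measure (ℕ → G.Stage)) (s₀ : G.S) (T : Set G.S) (n : ℕ) (x : G.S → ℝ) : ℝ :=
  ∑ h : Fin n → G.Stage, cyl μ n h *
    (if ∃ i, (h i).s ∈ T then 1 else ∑ t, (G.next s₀ (List.ofFn h) t).toReal * x t)

theorem sum_qr (σ : G.Strat1) (τ : G.Strat2) (s₀ : G.S) (h : List G.Stage) (φ : G.Stage → ℝ) :
    ∑ z, qr σ τ s₀ h z * φ z = ∑ s, (G.next s₀ h s).toReal *
      ∑ a, ∑ b, (σ h s a).toReal * (τ h s b).toReal * φ ⟨s, a, b⟩ := by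
  rw [sum_stage]
  refine Finset.sum_congr rfl fun s _ => ?_
  rw [Finset.mul_sum]
  refine Finset.sum_congr rfl fun a _ => ?_
  rw [Finset.mul_sum]
  refine Finset.sum_congr rfl fun b _ => ?_
  unfold qr
  ring

omit [Fintype G.S] [Fintype G.Stage] in
theorem sum_ab (σ : G.Strat1) (τ : G.Strat2) (h : List G.Stage) (s : G.S) :
    ∑ a, ∑ b, (σ h s a).toReal * (τ h s b).toReal = 1 := by
  have : ∀ a, ∑ b, (σ h s a).toReal * (τ h s b).toReal = (σ h s a).toReal := by
    intro a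
    rw [← Finset.mul_sum, pmf_sum, mul_one]
  simp only [this, pmf_sum]

theorem U_succ {σ : G.Strat1} {τ : G.Strat2} {s₀ : G.S} {μ : Measure (ℕ → G.Stage)}
    (hμ : G.IsLaw σ τ s₀ μ) (hσ : G.Stationary1 σ) (hτ : G.Stationary2 τ) (T : Set G.S) (n : ℕ)
    (x : G.S → ℝ) :
    U μ s₀ T (n + 1) x = U μ s₀ T n (Helper70.stepR (mc σ τ) T x) := by
  classical
  unfold U
  rw [← (Fin.snocEquiv (fun _ : Fin (n + 1) => G.Stage)).sum_comp, Fintype.sum_prod_type,
    Finset.sum_comm]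
  refine Finset.sum_congr rfl fun h _ => ?_
  change ∑ z, cyl μ (n + 1) (Fin.snoc h z : Fin (n + 1) → G.Stage) *
    (if ∃ i, ((Fin.snoc h z : Fin (n + 1) → G.Stage) i).s ∈ T then (1 : ℝ) else
      ∑ t, (G.next s₀ (List.ofFn (Fin.snoc h z : Fin (n + 1) → G.Stage)) t).toReal * x t) = _
  simp only [cyl_succ hμ, next_snoc, mul_assoc]
  rw [← Finset.mul_sum]
  congr 1
  by_cases hh : ∃ i, (h i).s ∈ T
  · rw [if_pos hh]
    have e : ∀ z : G.Stage, (∃ i, ((Fin.snoc h z : Fin (n + 1) → G.Stage) i).s ∈ T) := by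
      intro z
      obtain ⟨i, hi⟩ := hh
      refine ⟨i.castSucc, ?_⟩
      rw [Fin.snoc_castSucc]
      exact hi
    have e' : ∀ z : G.Stage, qr σ τ s₀ (List.ofFn h) z *
        (if ∃ i, ((Fin.snoc h z : Fin (n + 1) → G.Stage) i).s ∈ T then (1 : ℝ) else
          ∑ t, (G.p z.s z.a z.b t).toReal * x t) = qr σ τ s₀ (List.ofFn h) z * 1 := by
      intro z
      rw [if_pos (e z)]
    rw [Finset.sum_congr rfl fun z _ => e' z, sum_qr]
    simp only [mul_one, sum_ab, pmf_sum]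
  · rw [if_neg hh]
    have e' : ∀ z : G.Stage, qr σ τ s₀ (List.ofFn h) z *
        (if ∃ i, ((Fin.snoc h z : Fin (n + 1) → G.Stage) i).s ∈ T then (1 : ℝ) else
          ∑ t, (G.p z.s z.a z.b t).toReal * x t) = qr σ τ s₀ (List.ofFn h) z *
        (if z.s ∈ T then (1 : ℝ) else ∑ t, (G.p z.s z.a z.b t).toReal * x t) := by
      intro z
      have : (∃ i, ((Fin.snoc h z : Fin (n + 1) → G.Stage) i).s ∈ T) ↔ z.s ∈ T := by
        constructor
        · rintro ⟨i, hi⟩
          refine Fin.lastCases (motive := fun i =>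
            ((Fin.snoc h z : Fin (n + 1) → G.Stage) i).s ∈ T → z.s ∈ T) ?_ ?_ i hi
          · rw [Fin.snoc_last]
            exact id
          · intro j hj
            rw [Fin.snoc_castSucc] at hj
            exact absurd ⟨j, hj⟩ hh
        · intro hz
          refine ⟨Fin.last n, ?_⟩
          rw [Fin.snoc_last]
          exact hz
      rw [if_congr this rfl rfl]
    rw [Finset.sum_congr rfl fun z _ => e' z, sum_qr]
    refine Finset.sum_congr rfl fun s _ => ?_
    congr 1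
    dsimp only
    by_cases hs : s ∈ T
    · rw [Helper70.stepR_mem hs]
      simp only [if_pos hs, mul_one, sum_ab]
    · rw [Helper70.stepR_not_mem hs]
      simp only [if_neg hs]
      rw [hσ (List.ofFn h) [] s, hτ (List.ofFn h) [] s]
      unfold mc
      simp only [Finset.sum_mul]
      symm
      rw [Finset.sum_comm]
      refine Finset.sum_congr rfl fun a _ => ?_
      rw [Finset.sum_comm]
      refine Finset.sum_congr rfl fun b _ => ?_
      rw [Finset.mul_sum]
      exact Finset.sum_congr rfl fun t _ => by ring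

omit [∀ s, Fintype (G.A s)] [∀ s, Fintype (G.B s)] in
theorem U_zero {σ : G.Strat1} {τ : G.Strat2} {s₀ : G.S} {μ : Measure (ℕ → G.Stage)}
    (hμ : G.IsLaw σ τ s₀ μ) (T : Set G.S) (x : G.S → ℝ) : U μ s₀ T 0 x = x s₀ := by
  classical
  have := hμ.prob
  unfold U
  rw [Fintype.sum_unique]
  have e1 : cyl μ 0 (default : Fin 0 → G.Stage) = 1 := by
    unfold cyl
    have : {ω : ℕ → G.Stage | ∀ i : Fin 0, ω i = (default : Fin 0 → G.Stage) i} = Set.univ := by
      ext ω
      simp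
    rw [this, measure_univ, ENNReal.toReal_one]
  rw [e1, one_mul, if_neg (by simp)]
  have e2 : ∀ t, G.next s₀ (List.ofFn (default : Fin 0 → G.Stage)) t = if t = s₀ then 1 else 0 := by
    intro t
    unfold Game.next
    simp [PMF.pure_apply]
  simp only [e2]
  rw [Finset.sum_eq_single s₀]
  · simp
  · intro t _ ht
    simp [ht]
  · simp

theorem U_eq {σ : G.Strat1} {τ : G.Strat2} {s₀ : G.S} {μ : Measure (ℕ → G.Stage)}
    (hμ : G.IsLaw σ τ s₀ μ) (hσ : G.Stationary1 σ) (hτ : G.Stationary2 τ) (T : Set G.S) (n : ℕ) :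
    ∀ x : G.S → ℝ, U μ s₀ T n x = (Helper70.stepR (mc σ τ) T)^[n] x s₀ := by
  induction n with
  | zero =>
    intro x
    exact U_zero hμ T x
  | succ n ih =>
    intro x
    rw [U_succ hμ hσ hτ, ih, Function.iterate_succ_apply]

theorem hit_eq {σ : G.Strat1} {τ : G.Strat2} {s₀ : G.S} {μ : Measure (ℕ → G.Stage)}
    (hμ : G.IsLaw σ τ s₀ μ) (hσ : G.Stationary1 σ) (hτ : G.Stationary2 τ) (T : Set G.S) (n : ℕ) :
    (μ {ω | ∃ i < n, (ω i).s ∈ T}).toReal = (Helper70.stepR (mc σ τ) T)^[n] 0 s₀ := by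
  classical
  have := hμ.prob
  rw [← U_eq hμ hσ hτ]
  unfold U
  have hm : Measurable (fun (ω : ℕ → G.Stage) (i : Fin n) => ω i) := by fun_prop
  have h1 : {ω : ℕ → G.Stage | ∃ i < n, (ω i).s ∈ T} =
      (fun (ω : ℕ → G.Stage) (i : Fin n) => ω i) ⁻¹'
        ((Finset.univ.filter fun h : Fin n → G.Stage => ∃ i, (h i).s ∈ T : Finset (Fin n → G.Stage)) :
          Set (Fin n → G.Stage)) := by
    ext ω
    simp only [Set.mem_ofPred_eq, Finset.coe_filter, Finset.mem_univ, true_and, Set.mem_preimage]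
    constructor
    · rintro ⟨i, hi, h⟩
      exact ⟨⟨i, hi⟩, h⟩
    · rintro ⟨i, h⟩
      exact ⟨i.1, i.2, h⟩
  rw [h1, ← sum_measure_preimage_singleton _ (fun y _ => hm (MeasurableSet.singleton y)),
    ENNReal.toReal_sum (fun y _ => measure_ne_top μ _), Finset.sum_filter]
  refine Finset.sum_congr rfl fun h _ => ?_
  have h2 : (μ ((fun (ω : ℕ → G.Stage) (i : Fin n) => ω i) ⁻¹' {h})).toReal = cyl μ n h := by
    unfold cyl
    congr 2
    ext ω
    simp only [Set.mem_preimage, Set.mem_singleton_iff, Set.mem_ofPred_eq]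
    exact funext_iff
  rw [h2]
  by_cases hh : ∃ i, (h i).s ∈ T
  · rw [if_pos hh, if_pos hh, mul_one]
  · rw [if_neg hh, if_neg hh]
    simp

omit [Fintype G.Stage] in
theorem mc_nonneg (σ : G.Strat1) (τ : G.Strat2) (s t : G.S) : 0 ≤ mc σ τ s t :=
  Finset.sum_nonneg fun _ _ => Finset.sum_nonneg fun _ _ =>
    mul_nonneg (mul_nonneg ENNReal.toReal_nonneg ENNReal.toReal_nonneg) ENNReal.toReal_nonneg

omit [Fintype G.Stage] in
theorem mc_sum (σ : G.Strat1) (τ : G.Strat2) (s : G.S) : ∑ t, mc σ τ s t = 1 := by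
  unfold mc
  rw [Finset.sum_comm]
  have : ∀ a, ∑ t, ∑ b, (σ [] s a).toReal * (τ [] s b).toReal * (G.p s a b t).toReal =
      (σ [] s a).toReal := by
    intro a
    rw [Finset.sum_comm]
    simp only [← Finset.mul_sum, pmf_sum, mul_one]
  simp only [this, pmf_sum]

/-- The probability of reaching `T`, for stationary strategies. -/
theorem reach_eq {σ : G.Strat1} {τ : G.Strat2} {s₀ : G.S} {μ : Measure (ℕ → G.Stage)}
    (hμ : G.IsLaw σ τ s₀ μ) (hσ : G.Stationary1 σ) (hτ : G.Stationary2 τ) (T : Set G.S) :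
    (μ {ω | ∃ i, (ω i).s ∈ T}).toReal = Helper70.valR (mc σ τ) T s₀ := by
  have := hμ.prob
  have h1 : Tendsto (fun n => μ {ω : ℕ → G.Stage | ∃ i < n, (ω i).s ∈ T}) atTop
      (𝓝 (μ (⋃ n, {ω : ℕ → G.Stage | ∃ i < n, (ω i).s ∈ T}))) := by
    refine tendsto_measure_iUnion_atTop ?_
    intro m n hmn ω
    simp only [Set.mem_ofPred_eq]
    rintro ⟨i, hi, h⟩
    exact ⟨i, hi.trans_le hmn, h⟩
  have h2 : (⋃ n, {ω : ℕ → G.Stage | ∃ i < n, (ω i).s ∈ T}) = {ω | ∃ i, (ω i).s ∈ T} := by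
    ext ω
    simp only [Set.mem_iUnion, Set.mem_ofPred_eq]
    constructor
    · rintro ⟨n, i, -, h⟩
      exact ⟨i, h⟩
    · rintro ⟨i, h⟩
      exact ⟨i + 1, i, Nat.lt_succ_self i, h⟩
  rw [h2] at h1
  have h3 := (ENNReal.tendsto_toReal (measure_ne_top μ _)).comp h1
  have h4 : (ENNReal.toReal ∘ fun n => μ {ω : ℕ → G.Stage | ∃ i < n, (ω i).s ∈ T}) =
      fun n => (Helper70.stepR (mc σ τ) T)^[n] 0 s₀ := by
    funext n
    exact hit_eq hμ hσ hτ T n
  rw [h4] at h3
  exact tendsto_nhds_unique h3 (Helper70.valR_tendsto (mc_nonneg σ τ) (mc_sum σ τ) s₀)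

omit [Fintype G.S] [∀ s, Fintype (G.A s)] [∀ s, Fintype (G.B s)] [Fintype G.Stage] in
theorem safe_eq {μ : Measure (ℕ → G.Stage)} [IsProbabilityMeasure μ] (F : Set G.S) :
    (μ {ω | ∀ i, (ω i).s ∈ F}).toReal = 1 - (μ {ω | ∃ i, (ω i).s ∈ Fᶜ}).toReal := by
  have h1 : {ω : ℕ → G.Stage | ∀ i, (ω i).s ∈ F} = {ω | ∃ i, (ω i).s ∈ Fᶜ}ᶜ := by
    ext ω
    simp
  have h2 : MeasurableSet {ω : ℕ → G.Stage | ∃ i, (ω i).s ∈ Fᶜ} := by
    have : {ω : ℕ → G.Stage | ∃ i, (ω i).s ∈ Fᶜ} =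
        ⋃ i : ℕ, (fun ω : ℕ → G.Stage => ω i) ⁻¹' {z | z.s ∈ Fᶜ} := by
      ext ω
      simp
    rw [this]
    refine MeasurableSet.iUnion fun i => ?_
    exact (measurable_pi_apply i) trivial
  rw [h1, prob_compl_eq_one_sub h2, ENNReal.toReal_sub_of_le prob_le_one ENNReal.one_ne_top,
    ENNReal.toReal_one]

end

end Pool.Agent.Helper84.INS
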